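import Pool.Agent.helper98.ILF.Poly
import Pool.Agent.helper16.Multibrot.Final

/-!
# Where the unicritical polynomials with a Julia set of positive area live
-/

set_option autoImplicit false

namespace Pool.Agent.helper64.ILF98

open Pool.Agent.helper98.ILF Pool.Agent.helper16.Multibrot Pool.Agent.LeadMultibrot MeasureTheory Filter

/-- The parameters `c` for which the Julia set of `z ^ n + c` has positive area. -/
def posArea (n : ℕ) : Set ℂ := {c : ℂ | 0 < volume (juliaSet (fun z : ℂ => z ^ n + c))}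

lemma posArea_subset {n : ℕ} (hn : 2 ≤ n) : posArea n ⊆ multibrot n \ hyperbolic n := by
  intro c hc
  have hmem : c ∈ filled n c ∧ ¬ HasAttractingCycle (fun z : ℂ => z ^ n + c) := by
    by_contra hcon
    rw [not_and_or, not_not] at hcon
    exact (ne_of_gt hc) (volume_juliaSet_pow hn hcon)
  refine ⟨?_, hmem.2⟩
  intro ht
  obtain ⟨k, hk⟩ := (ht.eventually_gt_atTop (2 + ‖c‖)).exists_forall_of_atTop
  have h1 := hmem.1 k
  have h2 := hk (k + 1) (by omega)
  rw [Function.iterate_succ_apply] at h2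
  have h3 : (0 : ℂ) ^ n + c = c := by rw [zero_pow (by omega), zero_add]
  rw [h3] at h2
  linarith

lemma lineField_mem {n : ℕ} {c : ℂ} (h : HasInvariantLineField (fun z : ℂ => z ^ n + c)) :
    c ∈ posArea n := by
  by_contra hcon
  have h0 : volume (juliaSet (fun z : ℂ => z ^ n + c)) = 0 := by
    simpa [posArea] using hcon
  exact no_line_field h0 h

lemma region {n : ℕ} (hn : 10 ^ 7 ≤ n) {c : ℂ} (hc : c ∈ multibrot n \ hyperbolic n) :
    1 / (8 * (n : ℝ)) < ‖c ^ (n - 1)‖ ∧ 1 - 16 * (Real.log n / n) < ‖1 + c ^ (n - 1)‖ ∧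
      ‖1 + c ^ (n - 1)‖ ≤ 1 + 4 * (Real.log n / n) := by
  obtain ⟨hM, hH⟩ := hc
  obtain ⟨h16, h3, -⟩ := facts hn
  have hn2 : 2 ≤ n := by omega
  have hnR : (10 : ℝ) ^ 7 ≤ n := by exact_mod_cast hn
  have hn0 : (0 : ℝ) < n := by linarith
  have hL40 : Real.log n / n ≤ 1 / 40 := by
    rw [div_le_div_iff₀ hn0 (by norm_num)]
    nlinarith [mul_pos (show (0 : ℝ) < Real.log n by linarith) (show (0 : ℝ) < Real.log n by linarith)]
  have h1 : 1 / (8 * (n : ℝ)) < ‖c‖ ^ (n - 1) := by
    by_contra hcon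
    push Not at hcon
    obtain ⟨z, hz, hd⟩ := main_small hn2 hcon
    exact hH ⟨z, 1, one_pos, by simpa using hz, by simpa using hd⟩
  refine ⟨by rw [norm_pow]; exact h1, ?_, ?_⟩
  · by_contra hcon
    push Not at hcon
    exact hH (region_two hn2 (by rw [norm_pow]; exact norm_pow_le_two hn2 hM) hcon rfl)
  · rcases le_total (1 / (n : ℝ)) (‖c ^ (n - 1)‖) with h | h
    · exact norm_one_add_le hn2 hM (by rw [← norm_pow]; exact h) hL40
    · have h5 := norm_add_le 1 (c ^ (n - 1))
      rw [norm_one] at h5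
      have h6 : 1 / (n : ℝ) ≤ 4 * (Real.log n / n) := by
        rw [← mul_div_assoc]
        gcongr
        linarith
      linarith

end Pool.Agent.helper64.ILF98
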